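import Pool.Agent.H63N.StubUni

/-!
# A totally real curve with a gap in its set of stubborn degrees

The rational quintic `X ⊂ ℙ³` obtained from `ℙ¹` by gluing `9i ~ 10i` and `-9i ~ -10i` with sign
`-1` in the line bundle `𝒪(5)`: degree `2` is a stubborn degree of `X`, degree `4` is not.
-/

set_option autoImplicit false

open MvPolynomial
open Pool.Agent.H63N.StubUni (q z1 z2 q_z1 q_z2 q_pos q_deg q_ne q_dvd interp Eq2 z1_sq z2_sq)

namespace Pool.Agent.Results.MP_9ca6a9_ag.DegreeGap

noncomputable section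

/-! ### Definitions -/

variable {n : ℕ}

/-- `X(ℝ)`: the (nonzero representatives of the) real points of the subvariety of `ℙⁿ` defined by
the ideal `I` -/
def realPts (I : Ideal (MvPolynomial (Fin (n + 1)) ℝ)) : Set (Fin (n + 1) → ℝ) :=
  {x | x ≠ 0 ∧ ∀ f ∈ I, eval x f = 0}

/-- `I` is the homogeneous vanishing ideal `I(X)` of a nonempty totally real projective variety
`X ⊂ ℙⁿ`: it is homogeneous and it consists of all polynomials vanishing on `X(ℝ)`. -/
structure IsTotallyReal (I : Ideal (MvPolynomial (Fin (n + 1)) ℝ)) : Prop where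
  homogeneous : ∀ f ∈ I, ∀ i, homogeneousComponent i f ∈ I
  nonempty : (realPts I).Nonempty
  dense : ∀ f : MvPolynomial (Fin (n + 1)) ℝ, (∀ x ∈ realPts I, eval x f = 0) → f ∈ I

/-- the class of `F` in `ℝ[X]_{2k}` is a sum of squares of elements of `ℝ[X]_k` -/
def IsSOS (I : Ideal (MvPolynomial (Fin (n + 1)) ℝ)) (k : ℕ) (F : MvPolynomial (Fin (n + 1)) ℝ) :
    Prop :=
  ∃ (r : ℕ) (G : Fin r → MvPolynomial (Fin (n + 1)) ℝ),
    (∀ i, (G i).IsHomogeneous k) ∧ F - ∑ i, G i ^ 2 ∈ I

/-- the class of `F` is a stubborn form of degree `2k` -/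
def Stubborn (I : Ideal (MvPolynomial (Fin (n + 1)) ℝ)) (k : ℕ)
    (F : MvPolynomial (Fin (n + 1)) ℝ) : Prop :=
  F.IsHomogeneous (2 * k) ∧ (∀ x ∈ realPts I, 0 ≤ eval x F) ∧
    ∀ m : ℕ, Odd m → ¬ IsSOS I (k * m) (F ^ m)

/-- `2k` is a stubborn degree -/
def StubbornDegree (I : Ideal (MvPolynomial (Fin (n + 1)) ℝ)) (k : ℕ) : Prop :=
  ∃ F, Stubborn I k F

/-! ### The curve -/

/-- the four sections -/
def v : Fin 4 → Polynomial ℝ :=
  ![q, q * Polynomial.X, Polynomial.C 2 * Polynomial.X ^ 2 + Polynomial.C 181,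
    Polynomial.X ^ 3 + Polynomial.C 91 * Polynomial.X]

abbrev M : Type := MvPolynomial (Fin 4) ℝ

def phi : M →ₐ[ℝ] Polynomial ℝ := aeval v

def Phi : M →ₐ[ℝ] Polynomial (Polynomial ℝ) :=
  aeval fun j => Polynomial.C (v j) * Polynomial.X

/-- the vanishing ideal of the curve -/
def I : Ideal M := RingHom.ker Phi

theorem aeval_scale {S : Type*} [CommSemiring S] [Algebra ℝ S] {G : M} {k : ℕ}
    (hG : G.IsHomogeneous k) (w : Fin 4 → S) (c : S) :
    aeval (fun j => w j * c) G = aeval w G * c ^ k := by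
  rw [aeval_def, aeval_def, eval₂_eq', eval₂_eq', Finset.sum_mul]
  apply Finset.sum_congr rfl
  intro d hd
  have h1 : ∑ i, d i = k := by
    rw [hG.degree_eq_sum_deg_support hd]
    symm
    apply Finset.sum_subset (Finset.subset_univ _)
    intro x _ hx
    simpa using hx
  simp only [mul_pow, Finset.prod_mul_distrib, Finset.prod_pow_eq_pow_sum, h1]
  ring

theorem Phi_hom {G : M} {k : ℕ} (hG : G.IsHomogeneous k) :
    Phi G = Polynomial.C (phi G) * Polynomial.X ^ k := by
  unfold Phi phi
  rw [aeval_scale hG (fun j => Polynomial.C (v j)) Polynomial.X]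
  congr 1
  have := comp_aeval_apply (f := v) (Polynomial.CAlgHom (R := ℝ) (A := Polynomial ℝ)) G
  exact this.symm

theorem mem_I_iff {G : M} {k : ℕ} (hG : G.IsHomogeneous k) : G ∈ I ↔ phi G = 0 := by
  unfold I
  rw [RingHom.mem_ker, Phi_hom hG]
  constructor
  · intro h
    have := congrArg (fun P => Polynomial.coeff P k) h
    simpa using this
  · intro h
    rw [h]; simp

theorem phi_deg {G : M} {k : ℕ} (hG : G.IsHomogeneous k) : (phi G).natDegree ≤ 5 * k := by
  unfold phi
  rw [aeval_def, eval₂_eq']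
  apply Polynomial.natDegree_sum_le_of_forall_le
  intro d hd
  have h1 : ∑ i, d i = k := by
    rw [hG.degree_eq_sum_deg_support hd]
    symm
    apply Finset.sum_subset (Finset.subset_univ _)
    intro x _ hx
    simpa using hx
  refine Polynomial.natDegree_mul_le.trans ?_
  rw [Polynomial.algebraMap_eq, Polynomial.natDegree_C, zero_add]
  refine (Polynomial.natDegree_prod_le _ _).trans ?_
  rw [← h1, Finset.mul_sum]
  apply Finset.sum_le_sum
  intro i _
  refine Polynomial.natDegree_pow_le.trans ?_
  rw [mul_comm]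
  apply Nat.mul_le_mul_right
  fin_cases i
  · change q.natDegree ≤ 5
    rw [q_deg]; norm_num
  · change (q * Polynomial.X).natDegree ≤ 5
    refine Polynomial.natDegree_mul_le.trans ?_
    rw [q_deg, Polynomial.natDegree_X]
  · change (Polynomial.C 2 * Polynomial.X ^ 2 + Polynomial.C 181 : Polynomial ℝ).natDegree ≤ 5
    compute_degree!
  · change (Polynomial.X ^ 3 + Polynomial.C 91 * Polynomial.X : Polynomial ℝ).natDegree ≤ 5
    compute_degree!

theorem phi_glue {G : M} {k : ℕ} (hG : G.IsHomogeneous k) :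
    Polynomial.aeval z2 (phi G) = (-1) ^ k * Polynomial.aeval z1 (phi G) := by
  unfold phi
  have e1 := comp_aeval_apply (f := v) (Polynomial.aeval (R := ℝ) z1) G
  have e2 := comp_aeval_apply (f := v) (Polynomial.aeval (R := ℝ) z2) G
  rw [e1, e2]
  have h : (fun i => Polynomial.aeval z2 (v i)) = fun i => Polynomial.aeval z1 (v i) * (-1) := by
    funext i
    fin_cases i
    · change Polynomial.aeval z2 q = Polynomial.aeval z1 q * (-1)
      rw [q_z1, q_z2]; simp
    · change Polynomial.aeval z2 (q * Polynomial.X) = Polynomial.aeval z1 (q * Polynomial.X) * (-1)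
      rw [map_mul, map_mul, q_z1, q_z2]; simp
    · change Polynomial.aeval z2 (Polynomial.C 2 * Polynomial.X ^ 2 + Polynomial.C 181)
        = Polynomial.aeval z1 (Polynomial.C 2 * Polynomial.X ^ 2 + Polynomial.C 181) * (-1)
      simp only [map_add, map_mul, map_pow, Polynomial.aeval_X, Polynomial.aeval_C, z1_sq, z2_sq]
      norm_num
    · change Polynomial.aeval z2 (Polynomial.X ^ 3 + Polynomial.C 91 * Polynomial.X)
        = Polynomial.aeval z1 (Polynomial.X ^ 3 + Polynomial.C 91 * Polynomial.X) * (-1)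
      simp only [map_add, map_mul, map_pow, Polynomial.aeval_X, Polynomial.aeval_C]
      rw [pow_succ, pow_succ z1, z1_sq, z2_sq]
      simp only [z1, z2]
      norm_num
      ring
  rw [h, aeval_scale hG]
  ring

/-- evaluation at the real points of the curve -/
theorem eval_point (x T : ℝ) (G : M) :
    eval (fun j => (v j).eval x * T) G = ((Phi G).eval (Polynomial.C T)).eval x := by
  induction G using MvPolynomial.induction_on with
  | C a =>
    rw [eval_C]
    unfold Phi
    rw [aeval_C, Polynomial.algebraMap_apply]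
    simp
  | add p r hp hr => rw [map_add, hp, hr, map_add, Polynomial.eval_add, Polynomial.eval_add]
  | mul_X p i hp =>
    rw [map_mul, hp, map_mul, Polynomial.eval_mul, Polynomial.eval_mul, eval_X]
    congr 1
    unfold Phi
    rw [aeval_X]
    simp

theorem v2_pos (x : ℝ) : 0 < (v 2).eval x := by
  change 0 < (Polynomial.C 2 * Polynomial.X ^ 2 + Polynomial.C 181 : Polynomial ℝ).eval x
  simp only [Polynomial.eval_add, Polynomial.eval_mul, Polynomial.eval_C, Polynomial.eval_pow,
    Polynomial.eval_X]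
  positivity

theorem point_mem (x T : ℝ) (hT : T ≠ 0) :
    (fun j => (v j).eval x * T : Fin (3 + 1) → ℝ) ∈ realPts (n := 3) I := by
  refine ⟨?_, ?_⟩
  · intro h
    have h1 := congrFun h 2
    have h2 := v2_pos x
    have h3 : (v 2).eval x * T = 0 := h1
    rcases mul_eq_zero.1 h3 with h | h
    · exact h2.ne' h
    · exact hT h
  · intro f hf
    have h1 := eval_point x T f
    have h2 : Phi f = 0 := hf
    rw [h2] at h1
    rw [h1]
    simp

theorem totallyReal : IsTotallyReal (n := 3) I := by
  refine ⟨?_, ⟨_, point_mem 0 1 one_ne_zero⟩, ?_⟩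
  · intro f hf i
    have h0 : Phi f = 0 := hf
    by_cases hi : i < f.totalDegree + 1
    · rw [mem_I_iff (homogeneousComponent_isHomogeneous i f)]
      have h1 := sum_homogeneousComponent f
      have h2 : Phi f = ∑ j ∈ Finset.range (f.totalDegree + 1),
          Polynomial.C (phi (homogeneousComponent j f)) * Polynomial.X ^ j := by
        conv_lhs => rw [← h1]
        rw [map_sum]
        exact Finset.sum_congr rfl fun j _ => Phi_hom (homogeneousComponent_isHomogeneous j f)
      rw [h0] at h2
      have h3 := congrArg (fun P => Polynomial.coeff P i) h2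
      simp only [Polynomial.coeff_zero, Polynomial.finsetSum_coeff,
        Polynomial.coeff_C_mul_X_pow] at h3
      rw [Finset.sum_ite_eq] at h3
      rw [if_pos (Finset.mem_range.2 hi)] at h3
      exact h3.symm
    · rw [homogeneousComponent_eq_zero _ _ (by omega)]
      exact Ideal.zero_mem _
  · intro f hf
    change Phi f = 0
    apply Polynomial.eq_zero_of_infinite_isRoot
    apply Set.Infinite.mono (s := (fun T : ℝ => Polynomial.C T) '' {T | T ≠ 0})
    · rintro _ ⟨T, hT, rfl⟩
      change (Phi f).eval (Polynomial.C T) = 0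
      apply Polynomial.funext
      intro x
      rw [← eval_point, hf _ (point_mem x T hT)]
      simp
    · apply Set.Infinite.image (Polynomial.C_injective.injOn)
      exact Set.Infinite.mono (fun x (hx : (0 : ℝ) < x) => hx.ne') (Set.Ioi_infinite (0 : ℝ))

theorem isPrime : I.IsPrime := RingHom.ker_isPrime _

/-! ### Degree two is stubborn -/

/-- the stubborn quadratic form; it equals `16245 t ^ 10` on the curve -/
def F2 : M := C 45 * X 2 ^ 2 + C 4 * X 0 ^ 2 - C 4 * (X 1 * X 3) - C 180 * (X 0 * X 2)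

theorem hX2 (i j : Fin 4) : (X i * X j : M).IsHomogeneous 2 :=
  (isHomogeneous_X ℝ i).mul (isHomogeneous_X ℝ j)

theorem hXs (i : Fin 4) : (X i ^ 2 : M).IsHomogeneous 2 := isHomogeneous_X_pow i 2

theorem F2_hom : F2.IsHomogeneous 2 := by
  unfold F2
  exact ((((hXs 2).C_mul 45).add ((hXs 0).C_mul 4)).sub ((hX2 1 3).C_mul 4)).sub
    ((hX2 0 2).C_mul 180)

theorem phi_X0 : phi (X 0) = q := by unfold phi; rw [aeval_X]; rfl
theorem phi_X1 : phi (X 1) = q * Polynomial.X := by unfold phi; rw [aeval_X]; rfl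
theorem phi_X2 : phi (X 2) = Polynomial.C 2 * Polynomial.X ^ 2 + Polynomial.C 181 := by
  unfold phi; rw [aeval_X]; rfl
theorem phi_X3 : phi (X 3) = Polynomial.X ^ 3 + Polynomial.C 91 * Polynomial.X := by
  unfold phi; rw [aeval_X]; rfl
theorem phi_C (r : ℝ) : phi (C r) = Polynomial.C r := by
  unfold phi; rw [aeval_C]; rfl

theorem phi_F2 : phi F2 = Polynomial.C 16245 := by
  unfold F2
  simp only [map_sub, map_add, map_mul, map_pow, phi_X0, phi_X1, phi_X2, phi_X3, q,
    map_ofNat]
  ring

/-- auxiliary form with value `45 q` -/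
def A2 : M := X 1 * X 3 - X 0 ^ 2 + C 45 * (X 0 * X 2)

/-- auxiliary form with value `q x` -/
def B2 : M := C 2 * (X 0 * X 3) - X 1 * X 2

theorem relA : C 45 * (F2 * X 0 ^ 2) - C 361 * A2 ^ 2 ∈ I := by
  have hA : A2.IsHomogeneous 2 := by
    unfold A2
    exact ((hX2 1 3).sub (hXs 0)).add ((hX2 0 2).C_mul 45)
  have h : (C 45 * (F2 * X 0 ^ 2) - C 361 * A2 ^ 2 : M).IsHomogeneous 4 :=
    ((F2_hom.mul (hXs 0)).C_mul 45).sub ((hA.pow 2).C_mul 361)
  rw [mem_I_iff h, map_sub, map_mul, map_mul, phi_F2]
  unfold A2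
  simp only [map_sub, map_add, map_mul, map_pow, phi_X0, phi_X1, phi_X2, phi_X3, q,
    map_ofNat]
  ring

theorem relB : F2 * X 1 ^ 2 - C 16245 * B2 ^ 2 ∈ I := by
  have hB : B2.IsHomogeneous 2 := by
    unfold B2
    exact ((hX2 0 3).C_mul 2).sub (hX2 1 2)
  have h : (F2 * X 1 ^ 2 - C 16245 * B2 ^ 2 : M).IsHomogeneous 4 :=
    (F2_hom.mul (hXs 1)).sub ((hB.pow 2).C_mul 16245)
  rw [mem_I_iff h, map_sub, map_mul, phi_F2]
  unfold B2
  simp only [map_sub, map_mul, map_pow, phi_X0, phi_X1, phi_X2, phi_X3, q,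
    map_ofNat]
  ring

theorem relQ : C 729000 * X 2 ^ 2 + C 32490 * X 3 ^ 2 + C 181 * (X 0 ^ 2 - X 1 * X 3)
    - C 24390 * (X 0 * X 2) ∈ I := by
  have h : (C 729000 * X 2 ^ 2 + C 32490 * X 3 ^ 2 + C 181 * (X 0 ^ 2 - X 1 * X 3)
    - C 24390 * (X 0 * X 2) : M).IsHomogeneous 2 :=
    ((((hXs 2).C_mul _).add ((hXs 3).C_mul _)).add (((hXs 0).sub (hX2 1 3)).C_mul _)).sub
      ((hX2 0 2).C_mul _)
  rw [mem_I_iff h]
  simp only [map_sub, map_add, map_mul, map_pow, phi_X0, phi_X1, phi_X2, phi_X3, q,
    map_ofNat]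
  ring

theorem F2_nonneg (x : Fin (3 + 1) → ℝ) (hx : x ∈ realPts (n := 3) I) : 0 ≤ eval x F2 := by
  obtain ⟨hne, hI⟩ := hx
  have hA := hI _ relA
  have hB := hI _ relB
  have hQ := hI _ relQ
  simp only [map_sub, map_add, map_mul, map_pow, eval_C, eval_X] at hA hB hQ
  by_cases h0 : x 0 = 0
  · by_cases h1 : x 1 = 0
    · exfalso
      rw [h0, h1] at hQ
      have h2 : x 2 = 0 := by
        have : x 2 ^ 2 = 0 := by nlinarith [sq_nonneg (x 2), sq_nonneg (x 3)]
        exact pow_eq_zero_iff (two_ne_zero) |>.1 this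
      have h3 : x 3 = 0 := by
        have : x 3 ^ 2 = 0 := by nlinarith [sq_nonneg (x 2), sq_nonneg (x 3)]
        exact pow_eq_zero_iff (two_ne_zero) |>.1 this
      apply hne
      funext i
      fin_cases i
      · exact h0
      · exact h1
      · exact h2
      · exact h3
    · have hpos : 0 < x 1 ^ 2 := by positivity
      have h4 : eval x F2 * x 1 ^ 2 = 16245 * (eval x B2) ^ 2 := by linarith
      by_contra hneg
      push Not at hneg
      have h5 := mul_neg_of_neg_of_pos hneg hpos
      nlinarith [sq_nonneg (eval x B2)]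
  · have hpos : 0 < x 0 ^ 2 := by positivity
    have h4 : 45 * (eval x F2 * x 0 ^ 2) = 361 * (eval x A2) ^ 2 := by linarith
    by_contra hneg
    push Not at hneg
    have h5 := mul_neg_of_neg_of_pos hneg hpos
    nlinarith [sq_nonneg (eval x A2)]

/-- a real polynomial that is bounded on the line is constant -/
theorem const_of_bdd (g : Polynomial ℝ) (c : ℝ) (h : ∀ x, |g.eval x| ≤ c) :
    g = Polynomial.C (g.coeff 0) := by
  apply Polynomial.eq_C_of_degree_le_zero
  by_contra hdeg
  push Not at hdeg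
  have h1 := Polynomial.abs_tendsto_atTop g hdeg
  obtain ⟨x, hx⟩ := (h1.eventually (Filter.eventually_gt_atTop c)).exists
  exact absurd (h x) (not_le.2 hx)

theorem stubborn_one : StubbornDegree (n := 3) I 1 := by
  refine ⟨F2, F2_hom, F2_nonneg, ?_⟩
  rintro m hm ⟨r, G, hG, hmem⟩
  rw [one_mul] at hG
  have hhom : (F2 ^ m - ∑ i, G i ^ 2 : M).IsHomogeneous (2 * m) := by
    refine (F2_hom.pow m).sub (IsHomogeneous.sum _ _ _ fun i _ => ?_)
    have := (hG i).pow 2
    rwa [mul_comm] at this
  have h0 : phi (F2 ^ m - ∑ i, G i ^ 2) = 0 := (mem_I_iff hhom).1 hmem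
  rw [map_sub, map_pow, phi_F2, map_sum] at h0
  simp only [map_pow] at h0
  have h1 : ∀ x, ∑ i, ((phi (G i)).eval x) ^ 2 = 16245 ^ m := by
    intro x
    have := congrArg (Polynomial.eval x) h0
    simp only [Polynomial.eval_sub, Polynomial.eval_pow, Polynomial.eval_C,
      Polynomial.eval_finsetSum, Polynomial.eval_zero] at this
    linarith
  have h2 : ∀ i, phi (G i) = 0 := by
    intro i
    have h3 : ∀ x, ((phi (G i)).eval x) ^ 2 ≤ 16245 ^ m := by
      intro x
      rw [← h1 x]
      exact Finset.single_le_sum (f := fun i => ((phi (G i)).eval x) ^ 2)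
        (fun j _ => sq_nonneg _) (Finset.mem_univ i)
    have h4 : phi (G i) = Polynomial.C ((phi (G i)).coeff 0) := by
      apply const_of_bdd _ (Real.sqrt (16245 ^ m))
      intro x
      exact Real.abs_le_sqrt (h3 x)
    have h5 := phi_glue (hG i)
    rw [h4, Polynomial.aeval_C, Polynomial.aeval_C, hm.neg_one_pow] at h5
    have h6 : (phi (G i)).coeff 0 = 0 := by
      have : ((phi (G i)).coeff 0 : ℂ) = -1 * ((phi (G i)).coeff 0 : ℂ) := h5
      have : ((phi (G i)).coeff 0) = -1 * ((phi (G i)).coeff 0) := by exact_mod_cast this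
      linarith
    rw [h4, h6, Polynomial.C_0]
  have h3 := h1 0
  simp only [h2, Polynomial.eval_zero] at h3
  rw [zero_pow two_ne_zero, Finset.sum_const_zero] at h3
  have : (0 : ℝ) < 16245 ^ m := by positivity
  linarith

/-! ### The curve is projectively normal enough: lifting -/

theorem z1_val (α : ℂ) : ((α.re : ℂ)) + (α.im : ℂ) * Complex.I = α := Complex.re_add_im α

theorem aeval_v2 : Polynomial.aeval z1 (phi (X 2)) = 19 ∧ Polynomial.aeval z2 (phi (X 2)) = -19 := by
  rw [phi_X2]
  constructor <;> simp only [map_add, map_mul, map_pow, Polynomial.aeval_X, Polynomial.aeval_C,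
    z1_sq, z2_sq] <;> norm_num

theorem aeval_v3 : Polynomial.aeval z1 (phi (X 3)) = 90 * Complex.I ∧
    Polynomial.aeval z2 (phi (X 3)) = -(90 * Complex.I) := by
  rw [phi_X3]
  constructor
  · simp only [map_add, map_mul, map_pow, Polynomial.aeval_X, Polynomial.aeval_C]
    rw [pow_succ, z1_sq]
    simp only [z1]
    norm_num
    ring
  · simp only [map_add, map_mul, map_pow, Polynomial.aeval_X, Polynomial.aeval_C]
    rw [pow_succ, z2_sq]
    simp only [z2]
    norm_num
    ring

/-- a form of degree `k+1` with prescribed value at the glued points -/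
def W (k : ℕ) (ζ : ℂ) : M :=
  C (ζ.re / 19 ^ (k + 1)) * X 2 ^ (k + 1) + C (ζ.im / (19 ^ k * 90)) * (X 2 ^ k * X 3)

theorem W_hom (k : ℕ) (ζ : ℂ) : (W k ζ).IsHomogeneous (k + 1) := by
  unfold W
  exact ((isHomogeneous_X_pow _ _).C_mul _).add
    (((isHomogeneous_X_pow _ _).mul (isHomogeneous_X ℝ _)).C_mul _)

theorem W_z1 (k : ℕ) (ζ : ℂ) : Polynomial.aeval z1 (phi (W k ζ)) = ζ := by
  unfold W
  rw [map_add, map_mul, map_mul, map_mul, map_pow, map_pow, phi_C, phi_C, map_add, map_mul,
    map_mul, map_mul, map_pow, map_pow, aeval_v2.1, aeval_v3.1, Polynomial.aeval_C,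
    Polynomial.aeval_C]
  simp only [Complex.coe_algebraMap]
  push_cast
  have h19 : (19 : ℂ) ^ k ≠ 0 := pow_ne_zero _ (by norm_num)
  have h19' : (19 : ℂ) ^ (k + 1) ≠ 0 := pow_ne_zero _ (by norm_num)
  calc _ = (ζ.re : ℂ) + (ζ.im : ℂ) * Complex.I := by
        field_simp
    _ = ζ := Complex.re_add_im ζ

theorem W_deg (k : ℕ) (ζ : ℂ) : (phi (W k ζ)).natDegree ≤ 2 * k + 3 := by
  unfold W
  rw [map_add, map_mul, map_mul, map_mul, map_pow, map_pow, phi_C, phi_C]
  have d2 : (phi (X 2)).natDegree ≤ 2 := by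
    rw [phi_X2]; compute_degree
  have d3 : (phi (X 3)).natDegree ≤ 3 := by
    rw [phi_X3]; compute_degree
  have p1 : (phi (X 2) ^ k).natDegree ≤ k * 2 :=
    Polynomial.natDegree_pow_le.trans (Nat.mul_le_mul_left _ d2)
  have p2 : (phi (X 2) ^ (k + 1)).natDegree ≤ (k + 1) * 2 :=
    Polynomial.natDegree_pow_le.trans (Nat.mul_le_mul_left _ d2)
  refine (Polynomial.natDegree_add_le _ _).trans (max_le ?_ ?_)
  · refine Polynomial.natDegree_mul_le.trans ?_
    rw [Polynomial.natDegree_C]
    omega
  · refine Polynomial.natDegree_mul_le.trans ?_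
    rw [Polynomial.natDegree_C]
    have := Polynomial.natDegree_mul_le (p := phi (X 2) ^ k) (q := phi (X 3))
    omega

theorem lift (k : ℕ) : ∀ f : Polynomial ℝ, f.natDegree ≤ 5 * k →
    Polynomial.aeval z2 f = (-1) ^ k * Polynomial.aeval z1 f →
    ∃ G : M, G.IsHomogeneous k ∧ phi G = f := by
  induction k with
  | zero =>
    intro f hf _
    refine ⟨C (f.coeff 0), isHomogeneous_C _ _, ?_⟩
    rw [phi_C, ← Polynomial.eq_C_of_natDegree_le_zero (by omega)]
  | succ k ih =>
    intro f hf hglue
    -- subtract a form to vanish at the two points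
    have hWh := W_hom k (Polynomial.aeval z1 f)
    have hW1 := W_z1 k (Polynomial.aeval z1 f)
    have hW2 := phi_glue hWh
    obtain ⟨g, hg⟩ : q ∣ f - phi (W k (Polynomial.aeval z1 f)) := by
      apply q_dvd
      · rw [map_sub, hW1, sub_self]
      · rw [map_sub, hW2, hW1, hglue, sub_self]
    have hgdeg : g.natDegree ≤ 5 * k + 1 := by
      by_cases hg0 : g = 0
      · rw [hg0]; simp
      · have h1 : (q * g).natDegree = 4 + g.natDegree := by
          rw [Polynomial.natDegree_mul q_ne hg0, q_deg]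
        have h2 : (f - phi (W k (Polynomial.aeval z1 f))).natDegree ≤ 5 * k + 5 :=
          (Polynomial.natDegree_sub_le _ _).trans (max_le hf (phi_deg hWh))
        rw [hg, h1] at h2
        omega
    -- decompose `g = f1 + x f2`
    obtain ⟨G1, G2, hG1, hG2, hdec⟩ : ∃ G1 G2 : M, G1.IsHomogeneous k ∧ G2.IsHomogeneous k ∧
        g = phi G1 + Polynomial.X * phi G2 := by
      rcases Nat.eq_zero_or_pos k with hk | hk
      · subst hk
        refine ⟨C (g.coeff 0), C (g.coeff 1), isHomogeneous_C _ _, isHomogeneous_C _ _, ?_⟩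
        rw [phi_C, phi_C]
        have := Polynomial.eq_X_add_C_of_natDegree_le_one (p := g) (by omega)
        conv_lhs => rw [this]
        ring
      · obtain ⟨l, rfl⟩ : ∃ l, k = l + 1 := ⟨k - 1, by omega⟩
        set ξ : ℂ := -Complex.I * ((-1) ^ (l + 1) * Polynomial.aeval z2 g
          - Polynomial.aeval z1 g) with hξ
        set c : ℝ := g.coeff (5 * (l + 1) + 1) with hc
        have hVh := W_hom l ξ
        have hV1 := W_z1 l ξ
        have hV2 := phi_glue hVh
        have hVd := W_deg l ξ
        set f2 : Polynomial ℝ := phi (W l ξ) + Polynomial.C c * (q * Polynomial.X ^ (5 * l + 1))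
          with hf2
        have hqd : (q * Polynomial.X ^ (5 * l + 1)).natDegree = 5 * (l + 1) := by
          rw [Polynomial.natDegree_mul q_ne (pow_ne_zero _ Polynomial.X_ne_zero), q_deg,
            Polynomial.natDegree_X_pow]
          ring
        have hqm : (q * Polynomial.X ^ (5 * l + 1)).coeff (5 * (l + 1)) = 1 := by
          rw [← hqd, Polynomial.coeff_natDegree]
          have : q.Monic := by
            unfold q
            apply Polynomial.Monic.mul
            · monicity!
            · monicity!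
          exact (this.mul (Polynomial.monic_X_pow _)).leadingCoeff
        have hf2d : f2.natDegree ≤ 5 * (l + 1) := by
          rw [hf2]
          refine (Polynomial.natDegree_add_le _ _).trans (max_le (by omega) ?_)
          refine Polynomial.natDegree_mul_le.trans ?_
          rw [Polynomial.natDegree_C, hqd]
          omega
        have hf2c : f2.coeff (5 * (l + 1)) = c := by
          rw [hf2, Polynomial.coeff_add, Polynomial.coeff_C_mul, hqm,
            Polynomial.coeff_eq_zero_of_natDegree_lt (by omega)]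
          ring
        have hf21 : Polynomial.aeval z1 f2 = ξ := by
          rw [hf2, map_add, map_mul, map_mul, q_z1, hV1]
          ring
        have hf22 : Polynomial.aeval z2 f2 = (-1) ^ (l + 1) * ξ := by
          rw [hf2, map_add, map_mul, map_mul, q_z2, hV2, hV1]
          ring
        have hf1d : (g - Polynomial.X * f2).natDegree ≤ 5 * (l + 1) := by
          rw [Polynomial.natDegree_le_iff_coeff_eq_zero]
          intro N hN
          rcases Nat.lt_or_ge (5 * (l + 1) + 1) N with h | h
          · apply Polynomial.coeff_eq_zero_of_natDegree_lt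
            refine lt_of_le_of_lt ?_ h
            refine (Polynomial.natDegree_sub_le _ _).trans (max_le hgdeg ?_)
            refine Polynomial.natDegree_mul_le.trans ?_
            rw [Polynomial.natDegree_X]
            omega
          · obtain rfl : N = 5 * (l + 1) + 1 := by omega
            rw [Polynomial.coeff_sub, Polynomial.coeff_X_mul, hf2c, hc, sub_self]
        have hsgn : ((-1 : ℂ) ^ (l + 1)) * (-1) ^ (l + 1) = 1 := by
          rw [← mul_pow]; norm_num
        have hf1g : Polynomial.aeval z2 (g - Polynomial.X * f2)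
            = (-1) ^ (l + 1) * Polynomial.aeval z1 (g - Polynomial.X * f2) := by
          rw [map_sub, map_sub, map_mul, map_mul, hf21, hf22, Polynomial.aeval_X,
            Polynomial.aeval_X, hξ]
          have hI : Complex.I * Complex.I = -1 := Complex.I_mul_I
          generalize Polynomial.aeval z1 g = A
          generalize Polynomial.aeval z2 g = B
          generalize ((-1 : ℂ) ^ (l + 1)) = s at hsgn ⊢
          simp only [z1, z2]
          linear_combination (s ^ 2 * B - s * A) * hI - B * hsgn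
        obtain ⟨G1, hG1, hG1e⟩ := ih _ hf1d hf1g
        obtain ⟨G2, hG2, hG2e⟩ := ih _ hf2d (by rw [hf22, hf21])
        exact ⟨G1, G2, hG1, hG2, by rw [hG1e, hG2e]; ring⟩
    refine ⟨W k (Polynomial.aeval z1 f) + (X 0 * G1 + X 1 * G2), ?_, ?_⟩
    · refine hWh.add (IsHomogeneous.add ?_ ?_)
      · have := (isHomogeneous_X ℝ (0 : Fin 4)).mul hG1
        rwa [add_comm] at this
      · have := (isHomogeneous_X ℝ (1 : Fin 4)).mul hG2
        rwa [add_comm] at this
    · rw [map_add, map_add, map_mul, map_mul, phi_X0, phi_X1]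
      have : f = phi (W k (Polynomial.aeval z1 f)) + q * g := by rw [← hg]; ring
      conv_rhs => rw [this, hdec]
      ring

/-! ### Degree four is not stubborn -/

theorem not_stubborn_two : ¬ StubbornDegree (n := 3) I 2 := by
  rintro ⟨F, hF, hpos, hno⟩
  have hF4 : F.IsHomogeneous 4 := hF
  have hdeg : (phi F).natDegree ≤ 20 := phi_deg hF4
  have hnn : ∀ x, 0 ≤ (phi F).eval x := by
    intro x
    have h1 := hpos _ (point_mem x 1 one_ne_zero)
    rw [eval_point, Phi_hom hF4] at h1
    simpa using h1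
  have heq : Eq2 (phi F) := by
    have := phi_glue hF4
    unfold Eq2
    rw [this]
    norm_num
  obtain ⟨m, g, hm, hgd, hge, hsum⟩ := Pool.Agent.H63N.StubUni.main (phi F) hdeg hnn heq
  have hl : ∀ i, ∃ G : M, G.IsHomogeneous (2 * m) ∧ phi G = g i := by
    intro i
    apply lift
    · have := hgd i
      omega
    · rw [pow_mul, neg_one_sq, one_pow, one_mul]
      exact (hge i).symm
  choose G hG hGe using hl
  apply hno m hm
  refine ⟨3, G, hG, ?_⟩
  have hhom : (F ^ m - ∑ i, G i ^ 2 : M).IsHomogeneous (4 * m) := by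
    refine (hF4.pow m).sub (IsHomogeneous.sum _ _ _ fun i _ => ?_)
    have := (hG i).pow 2
    have e : 2 * m * 2 = 4 * m := by ring
    rwa [e] at this
  rw [mem_I_iff hhom, map_sub, map_pow, map_sum, hsum]
  simp only [map_pow, hGe, sub_self]

/-- **Gaps in the set of stubborn degrees.** There is a totally real (and irreducible) projective
variety `X ⊂ ℙ³` such that `2` is a stubborn degree of `X` but `4` is not. -/
theorem result : ∃ J : Ideal (MvPolynomial (Fin (3 + 1)) ℝ),
    IsTotallyReal J ∧ J.IsPrime ∧ StubbornDegree J 1 ∧ ¬ StubbornDegree J 2 :=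
  ⟨I, totallyReal, isPrime, stubborn_one, not_stubborn_two⟩

end

end Pool.Agent.Results.MP_9ca6a9_ag.DegreeGap
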